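import Pool.Agent.TH142.E2.Lens

/-!
The asymmetric lens, T3: `z h'(z) = c log cay(z)`, the angle and its boundary values.
-/

set_option autoImplicit false

noncomputable section

open MeasureTheory Filter Topology
open scoped BigOperators Matrix ENNReal

namespace Pool.Agent.TH142.E2

namespace T3X

lemma aa_ne (α : ℝ) : aa α ≠ 0 := Complex.exp_ne_zero _

lemma conj_aa (α : ℝ) : starRingEnd ℂ (aa α) = Complex.exp (-(α * Complex.I)) := by
  unfold aa
  rw [← Complex.exp_conj, map_mul, Complex.conj_ofReal, Complex.conj_I, mul_neg]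

lemma aa_mul_conj (α : ℝ) : aa α * starRingEnd ℂ (aa α) = 1 := by
  rw [conj_aa]
  unfold aa
  rw [← Complex.exp_add, add_neg_cancel, Complex.exp_zero]

lemma norm_aa (α : ℝ) : ‖aa α‖ = 1 := Complex.norm_exp_ofReal_mul_I α

lemma norm_conj_aa (α : ℝ) : ‖starRingEnd ℂ (aa α)‖ = 1 := by
  rw [RCLike.norm_conj, norm_aa]

lemma aa_re (α : ℝ) : (aa α).re = Real.cos α := Complex.exp_ofReal_mul_I_re α

lemma re_pos_sub {u : ℂ} (hu : ‖u‖ < 1) : 0 < (1 - u).re := by
  have h1 := (Complex.abs_re_le_norm u)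
  have h2 := le_abs_self u.re
  rw [Complex.sub_re, Complex.one_re]
  linarith

lemma re_pos_add {u : ℂ} (hu : ‖u‖ < 1) : 0 < (1 + u).re := by
  have h1 := (Complex.abs_re_le_norm u)
  have h2 := neg_abs_le u.re
  rw [Complex.add_re, Complex.one_re]
  linarith

lemma log_quot {u v : ℂ} (hu : 0 < u.re) (hv : 0 < v.re) :
    Complex.log (u / v) = Complex.log u - Complex.log v := by
  have hu0 : u ≠ 0 := by
    rintro rfl
    simp at hu
  have hv0 : v ≠ 0 := by
    rintro rfl
    simp at hv
  have h1 := abs_lt.1 (Complex.abs_arg_lt_pi_div_two_iff.mpr (Or.inl hu))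
  have h2 := abs_lt.1 (Complex.abs_arg_lt_pi_div_two_iff.mpr (Or.inl hv))
  have h3 : Complex.exp (Complex.log u - Complex.log v) = u / v := by
    rw [Complex.exp_sub, Complex.exp_log hu0, Complex.exp_log hv0]
  rw [← h3, Complex.log_exp]
  · rw [Complex.sub_im, Complex.log_im, Complex.log_im]
    linarith [h1.1, h2.2]
  · rw [Complex.sub_im, Complex.log_im, Complex.log_im]
    linarith [h1.2, h2.1]

lemma hasSum_log {u : ℂ} (hu : ‖u‖ < 1) :
    HasSum (fun n : ℕ => u ^ (n + 1) / ((n + 1 : ℕ) : ℂ)) (-Complex.log (1 - u)) := by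
  have h := Complex.hasSum_taylorSeries_neg_log hu
  have h2 := (hasSum_nat_add_iff' 1).2 h
  simpa using h2

lemma mul_ad {α : ℝ} {z : ℂ} (hz : ‖z‖ < 1) :
    z * ad α z = (cc α : ℂ) * Complex.log (cay α z) := by
  have h1 : ‖aa α * z‖ < 1 := by rw [norm_mul, norm_aa, one_mul]; exact hz
  have h2 : ‖-(starRingEnd ℂ (aa α) * z)‖ < 1 := by
    rw [norm_neg, norm_mul, norm_conj_aa, one_mul]; exact hz
  have h3 := (hasSum_log h1).sub (hasSum_log h2)
  have h4 : ∀ n : ℕ, z * (kp α n * z ^ n / ((n + 1 : ℕ) : ℂ)) =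
      (aa α * z) ^ (n + 1) / ((n + 1 : ℕ) : ℂ) -
        (-(starRingEnd ℂ (aa α) * z)) ^ (n + 1) / ((n + 1 : ℕ) : ℂ) := by
    intro n
    unfold kp
    have e1 : (-(starRingEnd ℂ (aa α) * z)) ^ (n + 1) =
        (-(starRingEnd ℂ (aa α))) ^ (n + 1) * z ^ (n + 1) := by
      rw [← neg_mul, mul_pow]
    rw [e1, mul_pow]
    ring
  have h5 : z * ad α z = (cc α : ℂ) * ∑' n : ℕ, z * (kp α n * z ^ n / ((n + 1 : ℕ) : ℂ)) := by
    unfold ad
    rw [tsum_mul_left]
    ring
  rw [h5, tsum_congr h4, h3.tsum_eq]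
  congr 1
  unfold cay
  rw [log_quot (re_pos_add (by rwa [norm_neg] at h2)) (re_pos_sub h1)]
  rw [sub_neg_eq_add]
  ring_nf

lemma mul_cay (α : ℝ) (z : ℂ) :
    aa α * cay α z = (aa α + z) / (1 - aa α * z) := by
  unfold cay
  rw [← mul_div_assoc]
  congr 1
  linear_combination z * aa_mul_conj α

lemma mul_cay_re (α : ℝ) (z : ℂ) :
    (aa α * cay α z).re =
      Real.cos α * (1 - Complex.normSq z) / Complex.normSq (1 - aa α * z) := by
  rw [mul_cay, Complex.div_re]
  have h1 : (aa α).re = Real.cos α := aa_re α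
  have h2 : (aa α).im = Real.sin α := Complex.exp_ofReal_mul_I_im α
  have h3 := Real.sin_sq_add_cos_sq α
  rw [← add_div]
  congr 1
  simp only [Complex.normSq_apply, Complex.add_re, Complex.one_re, Complex.sub_re, Complex.add_im,
    Complex.one_im, Complex.sub_im, Complex.mul_re, Complex.mul_im, h1, h2]
  linear_combination (-z.re) * h3

lemma den_ne {α : ℝ} {z : ℂ} (hz : ‖z‖ < 1) : 1 - aa α * z ≠ 0 := by
  intro h
  have h1 : aa α * z = 1 := by linear_combination -h
  have h2 : ‖aa α * z‖ = 1 := by rw [h1, norm_one]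
  rw [norm_mul, norm_aa, one_mul] at h2
  linarith

lemma num_ne {α : ℝ} {z : ℂ} (hz : ‖z‖ < 1) : 1 + starRingEnd ℂ (aa α) * z ≠ 0 := by
  intro h
  have h1 : starRingEnd ℂ (aa α) * z = -1 := by linear_combination h
  have h2 : ‖starRingEnd ℂ (aa α) * z‖ = 1 := by rw [h1, norm_neg, norm_one]
  rw [norm_mul, norm_conj_aa, one_mul] at h2
  linarith

lemma cos_pos {α : ℝ} (hα : |α| < Real.pi / 2) : 0 < Real.cos α :=
  Real.cos_pos_of_mem_Ioo ⟨by linarith [(abs_lt.1 hα).1], (abs_lt.1 hα).2⟩

lemma mul_cay_re_pos {α : ℝ} (hα : |α| < Real.pi / 2) {z : ℂ} (hz : ‖z‖ < 1) :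
    0 < (aa α * cay α z).re := by
  rw [mul_cay_re]
  apply div_pos
  · apply mul_pos (cos_pos hα)
    rw [Complex.normSq_eq_norm_sq]
    have := norm_nonneg z
    nlinarith
  · exact Complex.normSq_pos.mpr (den_ne hz)

/-- the argument of `w` and of `a w` -/
lemma arg_eq {α : ℝ} (hα : |α| < Real.pi / 2) {w : ℂ} (hw : w ≠ 0)
    (h : |(aa α * w).arg| ≤ Real.pi / 2) : w.arg = (aa α * w).arg - α := by
  have h0 : aa α * w ≠ 0 := mul_ne_zero (aa_ne α) hw
  have h1 : Complex.exp (Complex.log (aa α * w) - α * Complex.I) = w := by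
    rw [Complex.exp_sub, Complex.exp_log h0]
    change aa α * w / aa α = w
    rw [mul_div_cancel_left₀ _ (aa_ne α)]
  have him : (Complex.log (aa α * w) - α * Complex.I).im = (aa α * w).arg - α := by
    rw [Complex.sub_im, Complex.log_im]
    simp
  obtain ⟨h2, h3⟩ := abs_le.1 h
  obtain ⟨h4, h5⟩ := abs_lt.1 hα
  have h6 : Complex.log w = Complex.log (aa α * w) - α * Complex.I := by
    rw [← h1, Complex.log_exp, h1]
    · rw [him]; linarith
    · rw [him]; linarith
  rw [← Complex.log_im, h6, him]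

lemma cay_ne {α : ℝ} {z : ℂ} (hz : ‖z‖ < 1) : cay α z ≠ 0 := div_ne_zero (num_ne hz) (den_ne hz)

lemma arg_bound {α : ℝ} (hα : |α| < Real.pi / 2) {z : ℂ} (hz : ‖z‖ < 1) :
    -(Real.pi / 2 + α) < (cay α z).arg ∧ (cay α z).arg < Real.pi / 2 - α := by
  have h1 := Complex.abs_arg_lt_pi_div_two_iff.mpr (Or.inl (mul_cay_re_pos hα hz))
  rw [arg_eq hα (cay_ne hz) h1.le]
  obtain ⟨h2, h3⟩ := abs_lt.1 h1
  constructor <;> linarith

lemma slit {α : ℝ} (hα : |α| < Real.pi / 2) {z : ℂ} (hz : ‖z‖ < 1) :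
    cay α z ∈ Complex.slitPlane := by
  rw [Complex.mem_slitPlane_iff_arg]
  refine ⟨?_, cay_ne hz⟩
  have h1 := (arg_bound hα hz).2
  have h2 := (abs_lt.1 hα).1
  intro h3
  linarith

/-- the angle as a maximum -/
lemma qz_eq {α : ℝ} (hα : |α| < Real.pi / 2) (z : ℂ) :
    qz α z = max ((cay α z).arg / (Real.pi / 2 - α)) (-(cay α z).arg / (Real.pi / 2 + α)) := by
  obtain ⟨h4, h5⟩ := abs_lt.1 hα
  have h6 : 0 < Real.pi / 2 - α := by linarith
  have h7 : 0 < Real.pi / 2 + α := by linarith
  unfold qz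
  split_ifs with h
  · rw [max_eq_left]
    apply le_trans (b := (0 : ℝ))
    · apply div_nonpos_of_nonpos_of_nonneg
      · linarith
      · exact h7.le
    · exact div_nonneg h h6.le
  · push Not at h
    rw [max_eq_right]
    apply le_trans (b := (0 : ℝ))
    · exact div_nonpos_of_nonpos_of_nonneg h.le h6.le
    · exact div_nonneg (by linarith) h7.le

end T3X

open T3X

theorem T3 : S_T3 := by
  intro α hα
  obtain ⟨h4, h5⟩ := abs_lt.1 hα
  have h6 : 0 < Real.pi / 2 - α := by linarith
  have h7 : 0 < Real.pi / 2 + α := by linarith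
  refine ⟨fun z hz => mul_ad hz, fun z hz => arg_bound hα hz, ?_, fun z hz => slit hα hz, ?_⟩
  · have h1 : ContinuousOn (fun z : ℂ => (cay α z).arg) (Metric.ball 0 1) := by
      intro z hz
      have hz' : ‖z‖ < 1 := by simpa using hz
      have h2 : ContinuousAt (fun z : ℂ => cay α z) z := by
        unfold cay
        apply ContinuousAt.div
        · fun_prop
        · fun_prop
        · exact den_ne hz'
      exact (ContinuousAt.comp (f := fun z : ℂ => cay α z)
        (Complex.continuousAt_arg (slit hα hz')) h2).continuousWithinAt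
    have h2 : ContinuousOn (fun z : ℂ => max ((cay α z).arg / (Real.pi / 2 - α))
        (-(cay α z).arg / (Real.pi / 2 + α))) (Metric.ball 0 1) :=
      ContinuousOn.sup (ContinuousOn.div_const h1 _) (ContinuousOn.div_const h1.neg _)
    exact h2.congr fun z _ => qz_eq hα z
  · intro θ hθ1 hθ2
    set w : ℂ := Complex.exp (θ * Complex.I) with hw
    have hwn : ‖w‖ = 1 := Complex.norm_exp_ofReal_mul_I θ
    have hd : 1 - aa α * w ≠ 0 := fun h => hθ1 (by linear_combination -h)
    have hn : 1 + starRingEnd ℂ (aa α) * w ≠ 0 := fun h => hθ2 (by linear_combination h)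
    have hc0 : cay α w ≠ 0 := div_ne_zero hn hd
    have hre : (aa α * cay α w).re = 0 := by
      rw [mul_cay_re, Complex.normSq_eq_norm_sq w, hwn]
      simp
    have him : (aa α * cay α w).im ≠ 0 := by
      intro h
      apply mul_ne_zero (aa_ne α) hc0
      exact Complex.ext hre h
    have harg : (aa α * cay α w).arg = Real.pi / 2 ∨ (aa α * cay α w).arg = -(Real.pi / 2) := by
      rcases lt_or_gt_of_ne him with h | h
      · right
        exact Complex.arg_eq_neg_pi_div_two_iff.mpr ⟨hre, h⟩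
      · left
        exact Complex.arg_eq_pi_div_two_iff.mpr ⟨hre, h⟩
    have hle : |(aa α * cay α w).arg| ≤ Real.pi / 2 := by
      rcases harg with h | h
      · rw [h, abs_of_pos Real.pi_div_two_pos]
      · rw [h, abs_neg, abs_of_pos Real.pi_div_two_pos]
    have hae := arg_eq hα hc0 hle
    have hslit : cay α w ∈ Complex.slitPlane := by
      rw [Complex.mem_slitPlane_iff_arg]
      refine ⟨?_, hc0⟩
      intro h
      rw [h] at hae
      obtain ⟨e1, e2⟩ := abs_le.1 hle
      linarith
    have hcont : ContinuousAt (fun r : ℝ => (cay α ((r : ℂ) * w))) 1 := by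
      unfold cay
      apply ContinuousAt.div
      · fun_prop
      · fun_prop
      · simpa using hd
    have hcarg : ContinuousAt (fun r : ℝ => (cay α ((r : ℂ) * w)).arg) 1 := by
      have h2 : ContinuousAt Complex.arg (cay α (((1 : ℝ) : ℂ) * w)) := by
        rw [Complex.ofReal_one, one_mul]
        exact Complex.continuousAt_arg hslit
      exact ContinuousAt.comp (f := fun r : ℝ => cay α ((r : ℂ) * w)) h2 hcont
    have hq : ContinuousAt (fun r : ℝ => qz α ((r : ℂ) * w)) 1 := by
      have h2 : ContinuousAt (fun r : ℝ => max ((cay α ((r : ℂ) * w)).arg / (Real.pi / 2 - α))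
          (-(cay α ((r : ℂ) * w)).arg / (Real.pi / 2 + α))) 1 :=
        (hcarg.div_const _).max (hcarg.neg.div_const _)
      have h3 : (fun r : ℝ => qz α ((r : ℂ) * w)) = fun r : ℝ =>
          max ((cay α ((r : ℂ) * w)).arg / (Real.pi / 2 - α))
          (-(cay α ((r : ℂ) * w)).arg / (Real.pi / 2 + α)) := by
        funext r
        exact qz_eq hα _
      rw [h3]
      exact h2
    have hval : qz α (((1 : ℝ) : ℂ) * w) = 1 := by
      rw [Complex.ofReal_one, one_mul, qz_eq hα, hae]
      rcases harg with h | h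
      · rw [h, div_self h6.ne', max_eq_left]
        apply le_trans (b := (0 : ℝ))
        · apply div_nonpos_of_nonpos_of_nonneg
          · linarith
          · exact h7.le
        · exact zero_le_one
      · have e : -(-(Real.pi / 2) - α) = Real.pi / 2 + α := by ring
        rw [h, e, div_self h7.ne', max_eq_right]
        apply le_trans (b := (0 : ℝ))
        · apply div_nonpos_of_nonpos_of_nonneg
          · linarith
          · exact h6.le
        · exact zero_le_one
    have h8 := hq.tendsto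
    rw [hval] at h8
    exact h8.mono_left nhdsWithin_le_nhds

end Pool.Agent.TH142.E2
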